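import Pool.Agent.Y485.UGS.Stm

/-!
# UGS-QUOT: quotients (helper349, for helper485)
-/

set_option autoImplicit false

namespace Pool.Agent.Y349.UGS

open Pool.Agent.Y485.UGS

theorem ball_finite {G : Type} [Group G] (X : Finset G) (n : ℕ) : (Ball X n).Finite := by
  classical
  set S : Set G := {x | x ∈ X ∨ x⁻¹ ∈ X} with hS
  have hfin : S.Finite := by
    apply (X ∪ X.image (fun x => x⁻¹)).finite_toSet.subset
    intro x hx
    rw [Finset.mem_coe, Finset.mem_union, Finset.mem_image]
    rcases hx with hx | hx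
    · exact Or.inl hx
    · exact Or.inr ⟨x⁻¹, hx, inv_inv x⟩
  have : Finite S := hfin
  apply ((List.finite_length_le S n).image (fun l : List S => (l.map Subtype.val).prod)).subset
  rintro g ⟨l, hl, hmem, rfl⟩
  have hmem' : ∀ x ∈ l, x ∈ S := hmem
  lift l to List S using hmem'
  refine ⟨l, ?_, rfl⟩
  rw [List.length_map] at hl
  exact hl

theorem lift_list {G H : Type} [Group G] [Group H] [DecidableEq H] (f : G →* H) (X : Finset G)
    (l : List H) (h : ∀ x ∈ l, x ∈ X.image f ∨ x⁻¹ ∈ X.image f) :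
    ∃ l' : List G, l'.map f = l ∧ ∀ x ∈ l', x ∈ X ∨ x⁻¹ ∈ X := by
  induction l with
  | nil => exact ⟨[], rfl, by simp⟩
  | cons a l ih =>
    obtain ⟨l', h1, h2⟩ := ih fun x hx => h x (List.mem_cons_of_mem _ hx)
    have h3 : ∃ b : G, f b = a ∧ (b ∈ X ∨ b⁻¹ ∈ X) := by
      rcases h a List.mem_cons_self with h4 | h4
      · obtain ⟨b, hb, hb2⟩ := Finset.mem_image.1 h4
        exact ⟨b, hb2, Or.inl hb⟩
      · obtain ⟨b, hb, hb2⟩ := Finset.mem_image.1 h4
        exact ⟨b⁻¹, by rw [map_inv, hb2, inv_inv], Or.inr (by rwa [inv_inv])⟩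
    obtain ⟨b, hb1, hb2⟩ := h3
    refine ⟨b :: l', by rw [List.map_cons, hb1, h1], fun x hx => ?_⟩
    rcases List.mem_cons.1 hx with rfl | hx
    · exact hb2
    · exact h2 x hx

theorem quot : S_QUOT := by
  classical
  intro G _ X hX l
  have hsurj := QuotientGroup.mk'_surjective (derivedSeries G l)
  refine ⟨?_, X.image (QuotientGroup.mk' (derivedSeries G l)), ?_, fun k => ?_⟩
  · rw [← map_derivedSeries_eq hsurj l]
    exact QuotientGroup.map_mk'_self _
  · rw [Finset.coe_image, ← MonoidHom.map_closure, hX, Subgroup.map_top_of_surjective _ hsurj]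
  · have hsub : Ball (X.image (QuotientGroup.mk' (derivedSeries G l))) k ⊆
        QuotientGroup.mk' (derivedSeries G l) '' Ball X k := by
      rintro g ⟨w, hw, hmem, rfl⟩
      obtain ⟨w', h1, h2⟩ := lift_list (QuotientGroup.mk' (derivedSeries G l)) X w hmem
      refine ⟨w'.prod, ⟨w', ?_, h2, rfl⟩, ?_⟩
      · rw [← h1, List.length_map] at hw
        exact hw
      · rw [map_list_prod, h1]
    exact (Set.ncard_le_ncard hsub ((ball_finite X k).image _)).trans
      (Set.ncard_image_le (ball_finite X k))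

end Pool.Agent.Y349.UGS
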